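import Pool.Agent.H83.K3.Om

/-!
MP_9fed08_al, p = 3: the operator `Omega = Om ρ ∘ Δ` on `ker E`: it is nilpotent modulo the monomials in the
generators and `J`, it commutes with the derivations that commute with `E`, and it is `2` on primitive elements.
-/

set_option autoImplicit false

namespace H83.K3

open TensorProduct

section

variable {K : Type} [Field K] {U : Type} [Ring U] [Algebra K U] {E : U →ₗ[K] U}
  {F : ℕ → Submodule K U} {Δ : U →ₐ[K] U ⊗[K] U} {G : ℕ → U → Prop} {S : Set U}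

/-- a filtered algebra with derivation and coproduct; `S` are elements of degree one, `G` the generators -/
structure CP (E : U →ₗ[K] U) (F : ℕ → Submodule K U) (Δ : U →ₐ[K] U ⊗[K] U)
    (G : ℕ → U → Prop) (S : Set U) : Prop where
  ds : DS E F
  exh : ∀ u, ∃ m, u ∈ F m
  dE : ∀ u, Δ (E u) = E2 E (Δ u)
  dF : ∀ m u, u ∈ F m → Δ u ∈ FF F m
  inS : ∀ a ∈ S, a ∈ F 1 ∧ Δ a = prm K a ∧ Δ (E a) = prm K (E a)
  inG : ∀ d g, G d g → g ∈ F d ∧ E g = 0 ∧ Δ g = prm K g
  gen : Gen E F G S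

/-- the span of all monomials -/
def Yi (K : Type) [Field K] {U : Type} [Ring U] [Algebra K U] (G : ℕ → U → Prop) :
    Submodule K U :=
  Submodule.span K {u | ∃ m, Mon G m u}

theorem mon_F (h : CP E F Δ G S) {m : ℕ} {u : U} (hu : Mon G m u) : u ∈ F m ∧ E u = 0 := by
  induction hu with
  | one => exact ⟨h.ds.one, E_one h.ds⟩
  | up _ ih => exact ⟨h.ds.mono _ _ (Nat.le_succ _) ih.1, ih.2⟩
  | mul hg _ ih =>
    obtain ⟨g1, g2, -⟩ := h.inG _ _ hg
    exact ⟨h.ds.mul _ _ _ _ g1 ih.1, by rw [E_mul_of h.ds g2, ih.2, mul_zero]⟩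

theorem yi_ker (h : CP E F Δ G S) {u : U} (hu : u ∈ Yi K G) : E u = 0 := by
  induction hu using Submodule.span_induction with
  | zero => exact map_zero _
  | add a b _ _ ha hb => rw [map_add, ha, hb, add_zero]
  | smul c a _ ha => rw [map_smul, ha, smul_zero]
  | mem u hu =>
    obtain ⟨m, hm⟩ := hu
    exact (mon_F h hm).2

theorem yy_yi {m : ℕ} : YY K G m ≤ Yi (K := K) (U := U) G :=
  Submodule.span_mono fun _ hu => ⟨m, hu⟩

theorem mon_mul {i j : ℕ} {u v : U} (hu : Mon G i u) (hv : Mon G j v) : ∃ k, Mon G k (u * v) := by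
  induction hu with
  | one => exact ⟨j, by rwa [one_mul]⟩
  | up _ ih => exact ih
  | mul hg _ ih =>
    obtain ⟨k, hk⟩ := ih
    exact ⟨_, by rw [mul_assoc]; exact Mon.mul hg hk⟩

theorem mon_nn (h : CP E F Δ G S) {m : ℕ} {u : U} (hu : Mon G m u) : Δ u ∈ NN E F m := by
  induction hu with
  | one =>
    rw [map_one, Algebra.TensorProduct.one_def]
    exact nn1 (Nat.add_zero 0).le h.ds.one h.ds.one (E_one h.ds) (E_one h.ds)
  | up _ ih => exact nn_mono (Nat.le_succ _) ih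
  | mul hg _ ih =>
    obtain ⟨g1, g2, g3⟩ := h.inG _ _ hg
    rw [map_mul, g3]
    exact nn_prm h.ds g1 g2 ih

theorem yy_nn (h : CP E F Δ G S) {m : ℕ} {u : U} (hu : u ∈ YY K G m) : Δ u ∈ NN E F m := by
  induction hu using Submodule.span_induction with
  | zero => rw [map_zero]; exact Submodule.zero_mem _
  | add a b _ _ ha hb => rw [map_add]; exact Submodule.add_mem _ ha hb
  | smul c a _ ha => rw [map_smul]; exact Submodule.smul_mem _ _ ha
  | mem u hu => exact mon_nn h hu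

theorem dlt_kap (h : CP E F Δ G S) {a a' : U} (ha : a ∈ S) (ha' : a' ∈ S) :
    Δ (kap E a a') = dk E a a' := by
  obtain ⟨-, h1, h2⟩ := h.inS a ha
  obtain ⟨-, h1', h2'⟩ := h.inS a' ha'
  unfold kap dk
  rw [map_sub, map_mul, map_mul, h1, h2, h1', h2']

/-- the coproduct of an element of `ker E` of degree `m` is in `NN m` -/
theorem dlt_nn (h : CP E F Δ G S) (h3 : (3 : K) = 0) (m : ℕ) :
    ∀ u : U, u ∈ F m → E u = 0 → Δ u ∈ NN E F m := by
  induction m using Nat.strong_induction_on with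
  | _ m ih =>
    intro u hu hE
    rcases m with _ | m
    · exact yy_nn h (h.gen.1 ⟨LinearMap.mem_ker.2 hE, hu⟩)
    · have h1 := h.gen.2 m ⟨LinearMap.mem_ker.2 hE, hu⟩
      obtain ⟨v1, hv1, t, ht, e1⟩ := Submodule.mem_sup.1 h1
      obtain ⟨v2, hv2, j, hj, e2⟩ := Submodule.mem_sup.1 hv1
      obtain ⟨y, hy, k, hk, e3⟩ := Submodule.mem_sup.1 hv2
      rw [← e1, ← e2, ← e3, map_add, map_add, map_add]
      refine Submodule.add_mem _ (Submodule.add_mem _ (Submodule.add_mem _ (yy_nn h hy) ?_) ?_) ?_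
      · clear e1 e2 e3
        unfold KK at hk
        induction hk using Submodule.span_induction with
        | zero => rw [map_zero]; exact Submodule.zero_mem _
        | add a b _ _ ha hb => rw [map_add]; exact Submodule.add_mem _ ha hb
        | smul c a _ ha => rw [map_smul]; exact Submodule.smul_mem _ _ ha
        | mem u hu =>
          obtain ⟨i, a, a', s, k1, k2, k3, k4, k5, k6, k7, rfl⟩ := hu
          rw [map_mul, dlt_kap h k2 k3]
          exact nn_mono (by omega) (nn_dk h.ds h3 (h.inS _ k2).1 (h.inS _ k3).1 k4 k5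
            (ih i (by omega) s k6 k7))
      · obtain ⟨w, ⟨hw1, hw2⟩, rfl⟩ := hj
        rw [h.dE]
        refine nn3 (h.dF _ _ hw2) ?_
        rw [← h.dE, ← h.dE]
        have h2 : E (E w) = 0 := hw1
        rw [h2, map_zero]
      · exact nn_mono (Nat.le_succ _) (ih m (Nat.lt_succ_self m) t ht.2 ht.1)

/-- the operator `Om ρ ∘ Δ` -/
noncomputable def Omg (ρ : U →ₗ[K] U) (Δ : U →ₐ[K] U ⊗[K] U) : U →ₗ[K] U := Om ρ ∘ₗ Δ.toLinearMap

theorem Omg_apply (ρ : U →ₗ[K] U) (Δ : U →ₐ[K] U ⊗[K] U) (u : U) : Omg ρ Δ u = Om ρ (Δ u) := rfl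

theorem Omg_jj (h : CP E F Δ G S) {ρ : U →ₗ[K] U} (hρ : Rho E ρ) {u : U} (hu : u ∈ JJ E) :
    Omg ρ Δ u ∈ JJ E := by
  obtain ⟨w, h1, rfl⟩ := mem_jj.1 hu
  rw [Omg_apply, h.dE]
  refine Om_E2 h.ds hρ ?_
  rw [← h.dE, ← h.dE, h1, map_zero]

theorem Om_ker (h : DS E F) {ρ : U →ₗ[K] U} (hρ : Rho E ρ) {m : ℕ} {t : U ⊗[K] U}
    (ht : t ∈ NN E F m) : E (Om ρ t) = 0 := by
  induction ht using Submodule.span_induction with
  | zero => rw [map_zero, map_zero]
  | add a b _ _ ha hb => rw [map_add, map_add, ha, hb, add_zero]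
  | smul c a _ ha => rw [map_smul, map_smul, ha, smul_zero]
  | mem t ht =>
    obtain ((⟨i, j, z, z', h1, h2, h4, h5, h6, rfl⟩ | ⟨i, j, x, y, h1, h2, h4, h5, h6, rfl⟩) |
      ⟨w, h1, h2, rfl⟩) := ht
    · have h7 := jj_ker (Om_ty1 h hρ h5 h6)
      rw [map_sub, E_mul_of h h5, h6, mul_zero, sub_zero] at h7
      exact h7
    · rw [Om_ty2 hρ, map_neg, E_kap h h5 h6, neg_zero]
    · exact jj_ker (Om_E2 h hρ h2)

theorem Omg_ker (h : CP E F Δ G S) (h3 : (3 : K) = 0) {ρ : U →ₗ[K] U} (hρ : Rho E ρ) {u : U}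
    (hu : E u = 0) : E (Omg ρ Δ u) = 0 := by
  obtain ⟨m, hm⟩ := h.exh u
  exact Om_ker h.ds hρ (dlt_nn h h3 m u hm hu)

/-- the coproduct of a monomial is a sum of tensors of monomials -/
theorem mon_dlt (h : CP E F Δ G S) {m : ℕ} {u : U} (hu : Mon G m u) :
    Δ u ∈ Submodule.span K {t : U ⊗[K] U | ∃ (i j : ℕ) (z z' : U), Mon G i z ∧ Mon G j z' ∧
      t = z ⊗ₜ[K] z'} := by
  induction hu with
  | one =>
    rw [map_one, Algebra.TensorProduct.one_def]
    exact Submodule.subset_span ⟨0, 0, 1, 1, Mon.one, Mon.one, rfl⟩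
  | up _ ih => exact ih
  | mul hg _ ih =>
    obtain ⟨g1, g2, g3⟩ := h.inG _ _ hg
    rw [map_mul, g3]
    generalize Δ _ = s at ih
    induction ih using Submodule.span_induction with
    | zero => rw [mul_zero]; exact Submodule.zero_mem _
    | add a b _ _ ha hb => rw [mul_add]; exact Submodule.add_mem _ ha hb
    | smul c a _ ha => rw [mul_smul_comm]; exact Submodule.smul_mem _ _ ha
    | mem t ht =>
      obtain ⟨i, j, z, z', k1, k2, rfl⟩ := ht
      unfold prm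
      rw [add_mul, Algebra.TensorProduct.tmul_mul_tmul, Algebra.TensorProduct.tmul_mul_tmul,
        one_mul, one_mul]
      exact Submodule.add_mem _ (Submodule.subset_span ⟨_, _, _, _, Mon.mul hg k1, k2, rfl⟩)
        (Submodule.subset_span ⟨_, _, _, _, k1, Mon.mul hg k2, rfl⟩)

theorem Omg_yi (h : CP E F Δ G S) {ρ : U →ₗ[K] U} (hρ : Rho E ρ) {u : U} (hu : u ∈ Yi K G) :
    Omg ρ Δ u ∈ Yi K G ⊔ JJ E := by
  induction hu using Submodule.span_induction with
  | zero => rw [map_zero]; exact Submodule.zero_mem _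
  | add a b _ _ ha hb => rw [map_add]; exact Submodule.add_mem _ ha hb
  | smul c a _ ha => rw [map_smul]; exact Submodule.smul_mem _ _ ha
  | mem u hu =>
    obtain ⟨m, hm⟩ := hu
    rw [Omg_apply]
    have h1 := mon_dlt h hm
    generalize Δ u = s at h1
    induction h1 using Submodule.span_induction with
    | zero => rw [map_zero]; exact Submodule.zero_mem _
    | add a b _ _ ha hb => rw [map_add]; exact Submodule.add_mem _ ha hb
    | smul c a _ ha => rw [map_smul]; exact Submodule.smul_mem _ _ ha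
    | mem t ht =>
      obtain ⟨i, j, z, z', k1, k2, rfl⟩ := ht
      obtain ⟨k, hk⟩ := mon_mul k1 k2
      have h2 := Om_ty1 h.ds hρ (mon_F h k1).2 (mon_F h k2).2
      have h4 : Om ρ (z ⊗ₜ[K] z') = z * z' + (Om ρ (z ⊗ₜ[K] z') - z * z') := by abel
      rw [h4]
      exact Submodule.add_mem_sup (Submodule.subset_span ⟨k, hk⟩) h2

theorem Omg_w (h : CP E F Δ G S) {ρ : U →ₗ[K] U} (hρ : Rho E ρ) {u : U}
    (hu : u ∈ Yi K G ⊔ JJ E) : Omg ρ Δ u ∈ Yi K G ⊔ JJ E := by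
  obtain ⟨y, hy, j, hj, rfl⟩ := Submodule.mem_sup.1 hu
  rw [map_add]
  exact Submodule.add_mem _ (Omg_yi h hρ hy) (Submodule.mem_sup_right (Omg_jj h hρ hj))

theorem Omg_w_iter (h : CP E F Δ G S) {ρ : U →ₗ[K] U} (hρ : Rho E ρ) (k : ℕ) {u : U}
    (hu : u ∈ Yi K G ⊔ JJ E) : (Omg ρ Δ)^[k] u ∈ Yi K G ⊔ JJ E := by
  induction k with
  | zero => exact hu
  | succ k ih =>
    rw [Function.iterate_succ_apply']
    exact Omg_w h hρ ih

theorem iter_add (f : U →ₗ[K] U) (k : ℕ) (u v : U) : f^[k] (u + v) = f^[k] u + f^[k] v := by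
  induction k generalizing u v with
  | zero => rfl
  | succ k ih => rw [Function.iterate_succ_apply, map_add, ih]; rfl

/-- `Omega` is nilpotent modulo the monomials and `J` -/
theorem Omg_nil (h : CP E F Δ G S) (h3 : (3 : K) = 0) {ρ : U →ₗ[K] U} (hρ : Rho E ρ) (m : ℕ) :
    ∀ u : U, u ∈ F m → E u = 0 → (Omg ρ Δ)^[m + 1] u ∈ Yi K G ⊔ JJ E := by
  induction m with
  | zero =>
    intro u hu hE
    exact Omg_yi h hρ (yy_yi (h.gen.1 ⟨LinearMap.mem_ker.2 hE, hu⟩))
  | succ m ih =>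
    intro u hu hE
    have h1 := h.gen.2 m ⟨LinearMap.mem_ker.2 hE, hu⟩
    obtain ⟨v1, hv1, t, ht, e1⟩ := Submodule.mem_sup.1 h1
    obtain ⟨v2, hv2, j, hj, e2⟩ := Submodule.mem_sup.1 hv1
    obtain ⟨y, hy, k, hk, e3⟩ := Submodule.mem_sup.1 hv2
    rw [← e1, ← e2, ← e3, Function.iterate_succ_apply, map_add, map_add, map_add, iter_add,
      iter_add, iter_add]
    refine Submodule.add_mem _ (Submodule.add_mem _ (Submodule.add_mem _
      (Omg_w_iter h hρ _ (Omg_yi h hρ (yy_yi hy))) ?_) ?_) ?_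
    · have h4 : Omg ρ Δ k ∈ JJ E ⊔ (LinearMap.ker E ⊓ F m) := by
        clear e1 e2 e3
        unfold KK at hk
        induction hk using Submodule.span_induction with
        | zero => rw [map_zero]; exact Submodule.zero_mem _
        | add a b _ _ ha hb => rw [map_add]; exact Submodule.add_mem _ ha hb
        | smul c a _ ha => rw [map_smul]; exact Submodule.smul_mem _ _ ha
        | mem u hu =>
          obtain ⟨i, a, a', s, k1, k2, k3, k4, k5, k6, k7, rfl⟩ := hu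
          rw [Omg_apply, map_mul, dlt_kap h k2 k3]
          have h5 := om_dk h.ds h3 hρ (h.inS _ k2).1 (h.inS _ k3).1 k4 k5
            (dlt_nn h h3 i s k6 k7)
          exact sup_le_sup_left (inf_le_inf_left _ (h.ds.mono _ _ (by omega))) _ h5
      obtain ⟨j', hj', t', ht', h5⟩ := Submodule.mem_sup.1 h4
      rw [← h5, iter_add]
      exact Submodule.add_mem _ (Omg_w_iter h hρ _ (Submodule.mem_sup_right hj'))
        (ih t' ht'.2 ht'.1)
    · refine Omg_w_iter h hρ _ (Submodule.mem_sup_right (Omg_jj h hρ ?_))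
      obtain ⟨w, ⟨hw1, -⟩, rfl⟩ := hj
      exact mem_jj.2 ⟨w, hw1, rfl⟩
    · rw [← Function.iterate_succ_apply, Function.iterate_succ_apply']
      exact Omg_w h hρ (ih t ht.2 ht.1)

/-- `Om` commutes with the derivations that commute with `E`, modulo `J` -/
theorem Om_der (h : DS E F) {ρ : U →ₗ[K] U} (hρ : Rho E ρ) {d : U →ₗ[K] U}
    (hd : ∀ u v, d (u * v) = d u * v + u * d v) (hdE : ∀ u, d (E u) = E (d u)) {m : ℕ}
    {t : U ⊗[K] U} (ht : t ∈ NN E F m) : Om ρ (E2 d t) - d (Om ρ t) ∈ JJ E := by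
  have hJ : ∀ v ∈ JJ E, d v ∈ JJ E := by
    intro v hv
    obtain ⟨w, h1, rfl⟩ := mem_jj.1 hv
    exact mem_jj.2 ⟨d w, by rw [← hdE, ← hdE, h1, map_zero], (hdE w).symm⟩
  have hcom : ∀ w : U ⊗[K] U, E2 d (E2 E w) = E2 E (E2 d w) := by
    intro w
    induction w using TensorProduct.induction_on with
    | zero => simp only [map_zero]
    | add a b ha hb => simp only [map_add, ha, hb]
    | tmul u v =>
      simp only [E2_tmul, map_add, hdE]
      abel
  induction ht using Submodule.span_induction with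
  | zero => simp only [map_zero, sub_zero]; exact Submodule.zero_mem _
  | add a b _ _ ha hb =>
    have h1 : Om ρ (E2 d (a + b)) - d (Om ρ (a + b)) =
        (Om ρ (E2 d a) - d (Om ρ a)) + (Om ρ (E2 d b) - d (Om ρ b)) := by
      simp only [map_add]
      abel
    rw [h1]
    exact Submodule.add_mem _ ha hb
  | smul c a _ ha =>
    have h1 : Om ρ (E2 d (c • a)) - d (Om ρ (c • a)) = c • (Om ρ (E2 d a) - d (Om ρ a)) := by
      simp only [map_smul, smul_sub]
    rw [h1]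
    exact Submodule.smul_mem _ _ ha
  | mem t ht =>
    obtain ((⟨i, j, z, z', h1, h2, h4, h5, h6, rfl⟩ | ⟨i, j, x, y, h1, h2, h4, h5, h6, rfl⟩) |
      ⟨w, h1, h2, rfl⟩) := ht
    · have e1 : E (d z) = 0 := by rw [← hdE, h5, map_zero]
      have e2 : E (d z') = 0 := by rw [← hdE, h6, map_zero]
      have h7 : Om ρ (E2 d (z ⊗ₜ[K] z')) - d (Om ρ (z ⊗ₜ[K] z')) =
          (Om ρ (d z ⊗ₜ[K] z') - d z * z') + (Om ρ (z ⊗ₜ[K] d z') - z * d z') -
            d (Om ρ (z ⊗ₜ[K] z') - z * z') := by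
        rw [E2_tmul, map_add, map_sub, hd]
        abel
      rw [h7]
      exact Submodule.sub_mem _ (Submodule.add_mem _ (Om_ty1 h hρ e1 h6) (Om_ty1 h hρ h5 e2))
        (hJ _ (Om_ty1 h hρ h5 h6))
    · have h7 : E2 d (x ⊗ₜ[K] E y - E x ⊗ₜ[K] y) =
          (d x ⊗ₜ[K] E y - E (d x) ⊗ₜ[K] y) + (x ⊗ₜ[K] E (d y) - E x ⊗ₜ[K] d y) := by
        rw [map_sub, E2_tmul, E2_tmul, hdE, hdE]
        abel
      rw [h7, map_add, Om_ty2 hρ, Om_ty2 hρ, Om_ty2 hρ]
      have h8 : -kap E (d x) y + -kap E x (d y) - d (-kap E x y) = 0 := by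
        unfold kap
        rw [map_neg, map_sub, hd, hd, hdE, hdE]
        abel
      rw [h8]
      exact Submodule.zero_mem _
    · rw [hcom]
      refine Submodule.sub_mem _ (Om_E2 h hρ ?_) (hJ _ (Om_E2 h hρ h2))
      rw [← hcom, ← hcom, h2, map_zero]

/-- primitive elements -/
theorem Omg_prm (h : CP E F Δ G S) {ρ : U →ₗ[K] U} (hρ : Rho E ρ) {w : U} (hw : E w = 0)
    (hp : Δ w = prm K w) : Omg ρ Δ w - (2 : K) • w ∈ JJ E := by
  have h1 : Omg ρ Δ w - (2 : K) • w = (Om ρ (w ⊗ₜ[K] 1) - w * 1) + (Om ρ (1 ⊗ₜ[K] w) - 1 * w) := by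
    rw [Omg_apply, hp, prm, map_add, mul_one, one_mul]
    module
  rw [h1]
  exact Submodule.add_mem _ (Om_ty1 h.ds hρ hw (E_one h.ds)) (Om_ty1 h.ds hρ (E_one h.ds) hw)

/-- the conclusion: a primitive element of `d (ker E)` is `d` of a combination of monomials modulo `J` -/
theorem omega_main (h : CP E F Δ G S) (h3 : (3 : K) = 0) (h2 : (2 : K) ≠ 0) {ρ : U →ₗ[K] U}
    (hρ : Rho E ρ) {d : U →ₗ[K] U} (hd : ∀ u v, d (u * v) = d u * v + u * d v)
    (hdE : ∀ u, d (E u) = E (d u)) (hdΔ : ∀ u, Δ (d u) = E2 d (Δ u)) {u w : U} (hu : E u = 0)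
    (hw : E w = 0) (hp : Δ w = prm K w) (hdu : d u = w) :
    ∃ v ∈ Yi K G, d v - w ∈ JJ E := by
  have hJ : ∀ v ∈ JJ E, d v ∈ JJ E := by
    intro v hv
    obtain ⟨w, h1, rfl⟩ := mem_jj.1 hv
    exact mem_jj.2 ⟨d w, by rw [← hdE, ← hdE, h1, map_zero], (hdE w).symm⟩
  have key : ∀ k : ℕ, E ((Omg ρ Δ)^[k] u) = 0 ∧ d ((Omg ρ Δ)^[k] u) - (2 : K) ^ k • w ∈ JJ E := by
    intro k
    induction k with
    | zero =>
      refine ⟨hu, ?_⟩
      show d u - (2 : K) ^ 0 • w ∈ JJ E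
      rw [hdu, pow_zero, one_smul, sub_self]
      exact Submodule.zero_mem _
    | succ k ih =>
      obtain ⟨ih1, ih2⟩ := ih
      rw [Function.iterate_succ_apply']
      generalize (Omg ρ Δ)^[k] u = x at ih1 ih2 ⊢
      refine ⟨Omg_ker h h3 hρ ih1, ?_⟩
      obtain ⟨m, hm⟩ := h.exh x
      have h4 := Om_der h.ds hρ hd hdE (dlt_nn h h3 m x hm ih1)
      have h5 := Omg_jj h hρ ih2
      have h6 := Submodule.smul_mem _ ((2 : K) ^ k) (Omg_prm h hρ hw hp)
      have h7 : d (Omg ρ Δ x) - (2 : K) ^ (k + 1) • w =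
          - (Om ρ (E2 d (Δ x)) - d (Om ρ (Δ x))) + Omg ρ Δ (d x - (2 : K) ^ k • w) +
            (2 : K) ^ k • (Omg ρ Δ w - (2 : K) • w) := by
        rw [map_sub, map_smul, Omg_apply, Omg_apply, hdΔ, pow_succ]
        module
      rw [h7]
      exact Submodule.add_mem _ (Submodule.add_mem _ (Submodule.neg_mem _ h4) h5) h6
  obtain ⟨m, hm⟩ := h.exh u
  obtain ⟨v, hv, j, hj, hvj⟩ := Submodule.mem_sup.1 (Omg_nil h h3 hρ m u hm hu)
  have h4 := (key (m + 1)).2
  rw [← hvj, map_add] at h4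
  have h5 : ((2 : K) ^ (m + 1)) ≠ 0 := pow_ne_zero _ h2
  refine ⟨((2 : K) ^ (m + 1))⁻¹ • v, Submodule.smul_mem _ _ hv, ?_⟩
  have h6 : d (((2 : K) ^ (m + 1))⁻¹ • v) - w = ((2 : K) ^ (m + 1))⁻¹ •
      ((d v + d j - (2 : K) ^ (m + 1) • w) - d j) := by
    rw [map_smul, smul_sub, smul_sub, smul_add, smul_smul, inv_mul_cancel₀ h5, one_smul]
    abel
  rw [h6]
  exact Submodule.smul_mem _ _ (Submodule.sub_mem _ h4 (hJ _ hj))

end

end H83.K3
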