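import Mathlib

/-!
MP_9fed08_al, p = 3: a filtered algebra `U` over a field of characteristic 3 with a derivation `E`, `E ^ 3 = 0`.
`T = ker E`, `J = E (ker E ^ 2)`, `kap a x = a (E x) - (E a) x`, the derivation `E2` of `U ⊗ U`, and the
filtered subspaces `NN` of `ker E2`.
-/

set_option autoImplicit false

namespace H83.K3

open TensorProduct

section

variable {K : Type} [Field K] {U : Type} [Ring U] [Algebra K U]

/-- a derivation of cube zero of a filtered algebra, commutators with degree one do not raise the degree -/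
structure DS (E : U →ₗ[K] U) (F : ℕ → Submodule K U) : Prop where
  leib : ∀ u v, E (u * v) = E u * v + u * E v
  cube : ∀ u, E (E (E u)) = 0
  mono : ∀ i j, i ≤ j → F i ≤ F j
  one : (1 : U) ∈ F 0
  mul : ∀ i j u v, u ∈ F i → v ∈ F j → u * v ∈ F (i + j)
  comm : ∀ j u v, u ∈ F 1 → v ∈ F j → u * v - v * u ∈ F j
  stab : ∀ i u, u ∈ F i → E u ∈ F i

/-- the even product of two elements killed by `E ^ 2` -/
def kap (E : U →ₗ[K] U) (a x : U) : U := a * E x - E a * x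

/-- the image under `E` of `ker E ^ 2` -/
def JJ (E : U →ₗ[K] U) : Submodule K U :=
  Submodule.map E (LinearMap.ker (E ∘ₗ E))

/-- the derivation of `U ⊗ U` -/
noncomputable def E2 (E : U →ₗ[K] U) : U ⊗[K] U →ₗ[K] U ⊗[K] U :=
  TensorProduct.map E LinearMap.id + TensorProduct.map LinearMap.id E

/-- the filtration of `U ⊗ U` -/
def FF (F : ℕ → Submodule K U) (m : ℕ) : Submodule K (U ⊗[K] U) :=
  Submodule.span K {t | ∃ (i j : ℕ) (u v : U), i + j ≤ m ∧ u ∈ F i ∧ v ∈ F j ∧ t = u ⊗ₜ[K] v}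

/-- the three types of elements of `ker E2` -/
def NN (E : U →ₗ[K] U) (F : ℕ → Submodule K U) (m : ℕ) : Submodule K (U ⊗[K] U) :=
  Submodule.span K ({t | ∃ (i j : ℕ) (z z' : U), i + j ≤ m ∧ z ∈ F i ∧ z' ∈ F j ∧ E z = 0 ∧
      E z' = 0 ∧ t = z ⊗ₜ[K] z'} ∪
    {t | ∃ (i j : ℕ) (x y : U), i + j ≤ m ∧ x ∈ F i ∧ y ∈ F j ∧ E (E x) = 0 ∧ E (E y) = 0 ∧
      t = x ⊗ₜ[K] E y - E x ⊗ₜ[K] y} ∪
    {t | ∃ w ∈ FF F m, E2 E (E2 E w) = 0 ∧ t = E2 E w})

/-- the element `1 ⊗ g + g ⊗ 1` -/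
def prm (K : Type) [Field K] {U : Type} [Ring U] [Algebra K U] (g : U) : U ⊗[K] U :=
  g ⊗ₜ[K] 1 + 1 ⊗ₜ[K] g

/-- the coproduct of `kap a x` for primitive `a, x` -/
noncomputable def dk (E : U →ₗ[K] U) (a x : U) : U ⊗[K] U :=
  prm K a * prm K (E x) - prm K (E a) * prm K x

/-- the linear map `t ↦ mult (ρ ⊗ ρ) t` -/
noncomputable def Pi (ρ : U →ₗ[K] U) : U ⊗[K] U →ₗ[K] U :=
  LinearMap.mul' K U ∘ₗ TensorProduct.map ρ ρ

/-- `ρ` kills the image of `E` and is the identity modulo `J` on `ker E` -/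
structure Rho (E : U →ₗ[K] U) (ρ : U →ₗ[K] U) : Prop where
  im : ∀ u, ρ (E u) = 0
  id : ∀ z, E z = 0 → ρ z - z ∈ JJ E

/-- monomials in generators `G d g` (`g` of degree `d`) -/
inductive Mon (G : ℕ → U → Prop) : ℕ → U → Prop
  | one : Mon G 0 1
  | up {m : ℕ} {u : U} : Mon G m u → Mon G (m + 1) u
  | mul {d m : ℕ} {g u : U} : G d g → Mon G m u → Mon G (d + m) (g * u)

/-- the span of the monomials of degree at most `m` -/
def YY (K : Type) [Field K] {U : Type} [Ring U] [Algebra K U] (G : ℕ → U → Prop) (m : ℕ) :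
    Submodule K U :=
  Submodule.span K {u | Mon G m u}

/-- the span of the products `kap a a' * t` -/
def KK (E : U →ₗ[K] U) (F : ℕ → Submodule K U) (S : Set U) (m : ℕ) : Submodule K U :=
  Submodule.span K {u | ∃ (k : ℕ) (a a' t : U), k + 2 ≤ m ∧ a ∈ S ∧ a' ∈ S ∧ E (E a) = 0 ∧
    E (E a') = 0 ∧ t ∈ F k ∧ E t = 0 ∧ u = kap E a a' * t}

/-- elements of `J` of degree at most `m` -/
def JF (E : U →ₗ[K] U) (F : ℕ → Submodule K U) (m : ℕ) : Submodule K U :=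
  Submodule.map E (LinearMap.ker (E ∘ₗ E) ⊓ F m)

/-- generation of `ker E` -/
def Gen (E : U →ₗ[K] U) (F : ℕ → Submodule K U) (G : ℕ → U → Prop) (S : Set U) : Prop :=
  LinearMap.ker E ⊓ F 0 ≤ YY K G 0 ∧
  ∀ m, LinearMap.ker E ⊓ F (m + 1) ≤
    YY K G (m + 1) ⊔ KK E F S (m + 1) ⊔ JF E F (m + 1) ⊔ (LinearMap.ker E ⊓ F m)

end

end H83.K3
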