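import Pool.Agent.H83.K3.Nm

/-!
MP_9fed08_al, p = 3: the coproduct of `kap a a'` on the subspaces `NN`.
-/

set_option autoImplicit false

namespace H83.K3

open TensorProduct

section

variable {K : Type} [Field K] {U : Type} [Ring U] [Algebra K U] {E : U →ₗ[K] U}
  {F : ℕ → Submodule K U}

theorem E_one (h : DS E F) : E 1 = 0 := by
  have := h.leib 1 1
  rw [mul_one, mul_one, one_mul] at this
  exact left_eq_add.1 this

theorem E_kap (h : DS E F) {x y : U} (hx : E (E x) = 0) (hy : E (E y) = 0) :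
    E (kap E x y) = 0 := by
  unfold kap
  rw [map_sub, h.leib, h.leib, hx, hy, mul_zero, zero_mul, add_zero, zero_add, sub_self]

theorem kap_mem (h : DS E F) {i j : ℕ} {x y : U} (hx : x ∈ F i) (hy : y ∈ F j) :
    kap E x y ∈ F (i + j) :=
  Submodule.sub_mem _ (h.mul _ _ _ _ hx (h.stab _ _ hy)) (h.mul _ _ _ _ (h.stab _ _ hx) hy)

theorem dk_eq (a x : U) : dk E a x = kap E a x ⊗ₜ[K] 1 + 1 ⊗ₜ[K] kap E a x +
    (a ⊗ₜ[K] E x - E a ⊗ₜ[K] x) - (x ⊗ₜ[K] E a - E x ⊗ₜ[K] a) := by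
  unfold dk prm kap
  simp only [mul_add, add_mul, Algebra.TensorProduct.tmul_mul_tmul, one_mul, mul_one,
    TensorProduct.sub_tmul, TensorProduct.tmul_sub]
  abel

theorem E2_dk (h : DS E F) {a x : U} (ha : E (E a) = 0) (hx : E (E x) = 0) :
    E2 E (dk E a x) = 0 := by
  rw [dk_eq]
  simp only [map_add, map_sub, E2_tmul, E_kap h ha hx, E_one h, ha, hx, TensorProduct.zero_tmul,
    TensorProduct.tmul_zero]
  abel

theorem prm_ff (h : DS E F) {d : ℕ} {g : U} (hg : g ∈ F d) : prm K g ∈ FF F d := by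
  unfold prm
  exact Submodule.add_mem _ (ff_mem (Nat.add_zero d).le hg h.one)
    (ff_mem (Nat.zero_add d).le h.one hg)

theorem dk_ff (h : DS E F) {a x : U} (ha : a ∈ F 1) (hx : x ∈ F 1) : dk E a x ∈ FF F 2 := by
  have h1 : prm K a * prm K (E x) ∈ FF F (1 + 1) :=
    ff_mul h (prm_ff h ha) (prm_ff h (h.stab _ _ hx))
  have h2 : prm K (E a) * prm K x ∈ FF F (1 + 1) :=
    ff_mul h (prm_ff h (h.stab _ _ ha)) (prm_ff h hx)
  unfold dk
  exact Submodule.sub_mem _ h1 h2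

/-- the only place where `3 = 0` is used -/
theorem cross (h : DS E F) (h3 : (3 : K) = 0) {a a' x y : U} (ha : E (E a) = 0)
    (ha' : E (E a') = 0) (hx : E (E x) = 0) (hy : E (E y) = 0) :
    (a ⊗ₜ[K] E a' - E a ⊗ₜ[K] a') * (x ⊗ₜ[K] E y - E x ⊗ₜ[K] y) =
      (2 : K) • (kap E a x ⊗ₜ[K] kap E a' y) - E2 E (E2 E ((a * x) ⊗ₜ[K] (a' * y))) := by
  have h1 : E2 E (E2 E ((a * x) ⊗ₜ[K] (a' * y))) =
      (2 : K) • ((E a * E x) ⊗ₜ[K] (a' * y)) + (2 : K) • ((a * x) ⊗ₜ[K] (E a' * E y)) +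
      (2 : K) • ((E a * x) ⊗ₜ[K] (E a' * y) + (E a * x) ⊗ₜ[K] (a' * E y) +
        (a * E x) ⊗ₜ[K] (E a' * y) + (a * E x) ⊗ₜ[K] (a' * E y)) := by
    simp only [E2_tmul, map_add, h.leib, ha, ha', hx, hy, TensorProduct.add_tmul,
      TensorProduct.tmul_add, mul_zero, zero_mul, TensorProduct.zero_tmul,
      TensorProduct.tmul_zero, add_zero, zero_add]
    module
  rw [h1]
  have h2 : ∀ t : U ⊗[K] U, (3 : K) • t = 0 := fun t => by rw [h3, zero_smul]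
  unfold kap
  simp only [mul_sub, sub_mul, Algebra.TensorProduct.tmul_mul_tmul, TensorProduct.sub_tmul,
    TensorProduct.tmul_sub]
  have h4 := h2 ((a * x) ⊗ₜ[K] (E a' * E y) + (E a * E x) ⊗ₜ[K] (a' * y) +
    (a * E x) ⊗ₜ[K] (E a' * y) + (E a * x) ⊗ₜ[K] (a' * E y))
  linear_combination (norm := module) h4

theorem dk_ty1 (h : DS E F) {a a' z z' : U} (hz : E z = 0) (hz' : E z' = 0) :
    dk E a a' * (z ⊗ₜ[K] z') = (kap E a a' * z) ⊗ₜ[K] z' + z ⊗ₜ[K] (kap E a a' * z') +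
      ((a * z) ⊗ₜ[K] E (a' * z') - E (a * z) ⊗ₜ[K] (a' * z')) -
      ((a' * z) ⊗ₜ[K] E (a * z') - E (a' * z) ⊗ₜ[K] (a * z')) := by
  rw [dk_eq, E_mul_of' h hz, E_mul_of' h hz, E_mul_of' h hz', E_mul_of' h hz']
  simp only [mul_add, add_mul, sub_mul, Algebra.TensorProduct.tmul_mul_tmul, one_mul]

theorem dk_ty2 (h : DS E F) (h3 : (3 : K) = 0) {a a' x y : U} (ha : E (E a) = 0)
    (ha' : E (E a') = 0) (hx : E (E x) = 0) (hy : E (E y) = 0) :
    dk E a a' * (x ⊗ₜ[K] E y - E x ⊗ₜ[K] y) =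
      ((kap E a a' * x) ⊗ₜ[K] E y - E (kap E a a' * x) ⊗ₜ[K] y) +
      (x ⊗ₜ[K] E (kap E a a' * y) - E x ⊗ₜ[K] (kap E a a' * y)) +
      ((2 : K) • (kap E a x ⊗ₜ[K] kap E a' y) - E2 E (E2 E ((a * x) ⊗ₜ[K] (a' * y)))) -
      ((2 : K) • (kap E a' x ⊗ₜ[K] kap E a y) - E2 E (E2 E ((a' * x) ⊗ₜ[K] (a * y)))) := by
  have h1 := E_kap h ha ha'
  have h2 : ∀ g : U, g ⊗ₜ[K] 1 * (x ⊗ₜ[K] E y - E x ⊗ₜ[K] y) =
      (g * x) ⊗ₜ[K] E y - (g * E x) ⊗ₜ[K] y := by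
    intro g
    rw [mul_sub, Algebra.TensorProduct.tmul_mul_tmul, Algebra.TensorProduct.tmul_mul_tmul, one_mul,
      one_mul]
  have h4 : ∀ g : U, (1 : U) ⊗ₜ[K] g * (x ⊗ₜ[K] E y - E x ⊗ₜ[K] y) =
      x ⊗ₜ[K] (g * E y) - E x ⊗ₜ[K] (g * y) := by
    intro g
    rw [mul_sub, Algebra.TensorProduct.tmul_mul_tmul, Algebra.TensorProduct.tmul_mul_tmul, one_mul,
      one_mul]
  rw [← cross h h3 ha ha' hx hy, ← cross h h3 ha' ha hx hy, dk_eq, E_mul_of h h1, E_mul_of h h1,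
    sub_mul, add_mul, add_mul, h2, h4]

theorem E_sq_mul (h : DS E F) {z x : U} (hz : E z = 0) (hx : E (E x) = 0) :
    E (E (z * x)) = 0 := by
  rw [E_mul_of h hz, E_mul_of h hz, hx, mul_zero]

theorem E_sq_mul' (h : DS E F) {z x : U} (hz : E z = 0) (hx : E (E x) = 0) :
    E (E (x * z)) = 0 := by
  rw [E_mul_of' h hz, E_mul_of' h hz, hx, zero_mul]

/-- `NN` is stable under the coproduct of `kap a a'` -/
theorem nn_dk (h : DS E F) (h3 : (3 : K) = 0) {m : ℕ} {a a' : U} (ha1 : a ∈ F 1) (ha1' : a' ∈ F 1)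
    (ha : E (E a) = 0) (ha' : E (E a') = 0) {t : U ⊗[K] U} (ht : t ∈ NN E F m) :
    dk E a a' * t ∈ NN E F (2 + m) := by
  have hk := E_kap h ha ha'
  have hk2 : kap E a a' ∈ F 2 := kap_mem h ha1 ha1'
  induction ht using Submodule.span_induction with
  | zero => rw [mul_zero]; exact Submodule.zero_mem _
  | add a b _ _ ha hb => rw [mul_add]; exact Submodule.add_mem _ ha hb
  | smul c a _ ha => rw [mul_smul_comm]; exact Submodule.smul_mem _ _ ha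
  | mem t ht =>
    obtain ((⟨i, j, z, z', h1, h2, h4, h5, h6, rfl⟩ | ⟨i, j, x, y, h1, h2, h4, h5, h6, rfl⟩) |
      ⟨w, h1, h2, rfl⟩) := ht
    · rw [dk_ty1 h h5 h6]
      refine Submodule.sub_mem _ (Submodule.add_mem _ (Submodule.add_mem _
        (nn1 (i := 2 + i) (j := j) (by omega) (h.mul _ _ _ _ hk2 h2) h4 ?_ h6)
        (nn1 (i := i) (j := 2 + j) (by omega) h2 (h.mul _ _ _ _ hk2 h4) h5 ?_))
        (nn2 (i := 1 + i) (j := 1 + j) (by omega) (h.mul _ _ _ _ ha1 h2) (h.mul _ _ _ _ ha1' h4)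
          (E_sq_mul' h h5 ha) (E_sq_mul' h h6 ha')))
        (nn2 (i := 1 + i) (j := 1 + j) (by omega) (h.mul _ _ _ _ ha1' h2) (h.mul _ _ _ _ ha1 h4)
          (E_sq_mul' h h5 ha') (E_sq_mul' h h6 ha))
      · rw [E_mul_of h hk, h5, mul_zero]
      · rw [E_mul_of h hk, h6, mul_zero]
    · rw [dk_ty2 h h3 ha ha' h5 h6]
      have h7 : ∀ b b' : U, b ∈ F 1 → b' ∈ F 1 → E (E b) = 0 → E (E b') = 0 →
          (2 : K) • (kap E b x ⊗ₜ[K] kap E b' y) - E2 E (E2 E ((b * x) ⊗ₜ[K] (b' * y))) ∈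
            NN E F (2 + m) := by
        intro b b' hb hb' hbE hbE'
        have h8 : (b * x) ⊗ₜ[K] (b' * y) ∈ FF F (2 + m) :=
          ff_mem (i := 1 + i) (j := 1 + j) (by omega) (h.mul _ _ _ _ hb h2) (h.mul _ _ _ _ hb' h4)
        refine Submodule.sub_mem _ (Submodule.smul_mem _ _ (nn1 (i := 1 + i) (j := 1 + j)
          (by omega) (kap_mem h hb h2) (kap_mem h hb' h4) (E_kap h hbE h5) (E_kap h hbE' h6)))
          (nn3 (ff_stab h h8) ?_)
        have h9 : ∀ u v : U, E2 E (E2 E (E2 E (u ⊗ₜ[K] v))) = 0 := by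
          intro u v
          simp only [E2_tmul, map_add, h.cube, TensorProduct.zero_tmul, TensorProduct.tmul_zero]
          have h10 : (3 : K) • (E (E u) ⊗ₜ[K] E v + E u ⊗ₜ[K] E (E v)) = 0 := by
            rw [h3, zero_smul]
          linear_combination (norm := module) h10
        exact h9 _ _
      refine Submodule.sub_mem _ (Submodule.add_mem _ (Submodule.add_mem _
        (nn2 (i := 2 + i) (j := j) (by omega) (h.mul _ _ _ _ hk2 h2) h4 (E_sq_mul h hk h5) h6)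
        (nn2 (i := i) (j := 2 + j) (by omega) h2 (h.mul _ _ _ _ hk2 h4) h5 (E_sq_mul h hk h6)))
        (h7 a a' ha1 ha1' ha ha')) (h7 a' a ha1' ha1 ha' ha)
    · have h4 : dk E a a' * E2 E w = E2 E (dk E a a' * w) := by
        rw [E2_mul h, E2_dk h ha ha', zero_mul, zero_add]
      rw [h4]
      refine nn3 (ff_mul h (dk_ff h ha1 ha1') h1) ?_
      rw [← h4, E2_mul h, E2_dk h ha ha', zero_mul, zero_add, h2, mul_zero]

end

end H83.K3
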