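import Pool.Agent.H83.K3.Defs

/-!
MP_9fed08_al, p = 3: the subspaces `NN` are stable under the coproducts of the generators of `ker E`.
-/

set_option autoImplicit false

namespace H83.K3

open TensorProduct

section

variable {K : Type} [Field K] {U : Type} [Ring U] [Algebra K U] {E : U →ₗ[K] U}
  {F : ℕ → Submodule K U}

theorem E2_tmul (u v : U) : E2 E (u ⊗ₜ[K] v) = E u ⊗ₜ[K] v + u ⊗ₜ[K] E v := rfl

theorem E2_mul (h : DS E F) (s t : U ⊗[K] U) : E2 E (s * t) = E2 E s * t + s * E2 E t := by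
  induction s using TensorProduct.induction_on with
  | zero => rw [zero_mul, map_zero, zero_mul, zero_mul, add_zero]
  | add a b ha hb =>
    rw [add_mul, map_add, ha, hb, map_add, add_mul, add_mul]
    abel
  | tmul u v =>
    induction t using TensorProduct.induction_on with
    | zero => rw [mul_zero, map_zero, mul_zero, mul_zero, add_zero]
    | add a b ha hb =>
      rw [mul_add, map_add, ha, hb, map_add, mul_add, mul_add]
      abel
    | tmul x y =>
      rw [Algebra.TensorProduct.tmul_mul_tmul, E2_tmul, E2_tmul, E2_tmul, h.leib, h.leib, add_mul,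
        mul_add, Algebra.TensorProduct.tmul_mul_tmul, Algebra.TensorProduct.tmul_mul_tmul,
        Algebra.TensorProduct.tmul_mul_tmul, Algebra.TensorProduct.tmul_mul_tmul,
        TensorProduct.add_tmul, TensorProduct.tmul_add]
      abel

theorem ff_mem {m i j : ℕ} {u v : U} (hm : i + j ≤ m) (hu : u ∈ F i) (hv : v ∈ F j) :
    u ⊗ₜ[K] v ∈ FF F m :=
  Submodule.subset_span ⟨i, j, u, v, hm, hu, hv, rfl⟩

theorem ff_mono {i j : ℕ} (hij : i ≤ j) : FF (K := K) (U := U) F i ≤ FF F j := by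
  refine Submodule.span_mono ?_
  rintro t ⟨a, b, u, v, h1, h2, h3, rfl⟩
  exact ⟨a, b, u, v, h1.trans hij, h2, h3, rfl⟩

theorem ff_mul (h : DS E F) {i j : ℕ} {s t : U ⊗[K] U} (hs : s ∈ FF F i) (ht : t ∈ FF F j) :
    s * t ∈ FF F (i + j) := by
  induction hs using Submodule.span_induction with
  | zero => rw [zero_mul]; exact Submodule.zero_mem _
  | add a b _ _ ha hb => rw [add_mul]; exact Submodule.add_mem _ ha hb
  | smul c a _ ha => rw [smul_mul_assoc]; exact Submodule.smul_mem _ _ ha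
  | mem s hs =>
    obtain ⟨a, b, u, v, h1, h2, h3, rfl⟩ := hs
    induction ht using Submodule.span_induction with
    | zero => rw [mul_zero]; exact Submodule.zero_mem _
    | add a b _ _ ha hb => rw [mul_add]; exact Submodule.add_mem _ ha hb
    | smul c a _ ha => rw [mul_smul_comm]; exact Submodule.smul_mem _ _ ha
    | mem t ht =>
      obtain ⟨a', b', u', v', h1', h2', h3', rfl⟩ := ht
      rw [Algebra.TensorProduct.tmul_mul_tmul]
      exact ff_mem (by omega) (h.mul _ _ _ _ h2 h2') (h.mul _ _ _ _ h3 h3')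

theorem ff_stab (h : DS E F) {i : ℕ} {s : U ⊗[K] U} (hs : s ∈ FF F i) : E2 E s ∈ FF F i := by
  induction hs using Submodule.span_induction with
  | zero => rw [map_zero]; exact Submodule.zero_mem _
  | add a b _ _ ha hb => rw [map_add]; exact Submodule.add_mem _ ha hb
  | smul c a _ ha => rw [map_smul]; exact Submodule.smul_mem _ _ ha
  | mem s hs =>
    obtain ⟨a, b, u, v, h1, h2, h3, rfl⟩ := hs
    rw [E2_tmul]
    exact Submodule.add_mem _ (ff_mem h1 (h.stab _ _ h2) h3) (ff_mem h1 h2 (h.stab _ _ h3))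

theorem nn1 {m i j : ℕ} {z z' : U} (hm : i + j ≤ m) (hz : z ∈ F i) (hz' : z' ∈ F j) (h1 : E z = 0)
    (h2 : E z' = 0) : z ⊗ₜ[K] z' ∈ NN E F m :=
  Submodule.subset_span (Or.inl (Or.inl ⟨i, j, z, z', hm, hz, hz', h1, h2, rfl⟩))

theorem nn2 {m i j : ℕ} {x y : U} (hm : i + j ≤ m) (hx : x ∈ F i) (hy : y ∈ F j)
    (h1 : E (E x) = 0) (h2 : E (E y) = 0) : x ⊗ₜ[K] E y - E x ⊗ₜ[K] y ∈ NN E F m :=
  Submodule.subset_span (Or.inl (Or.inr ⟨i, j, x, y, hm, hx, hy, h1, h2, rfl⟩))

theorem nn3 {m : ℕ} {w : U ⊗[K] U} (hw : w ∈ FF F m) (h1 : E2 E (E2 E w) = 0) :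
    E2 E w ∈ NN E F m :=
  Submodule.subset_span (Or.inr ⟨w, hw, h1, rfl⟩)

theorem nn_mono {i j : ℕ} (hij : i ≤ j) : NN E F i ≤ NN E F j := by
  refine Submodule.span_mono ?_
  rintro t ((⟨a, b, z, z', h1, h2, h3, h4, h5, rfl⟩ | ⟨a, b, x, y, h1, h2, h3, h4, h5, rfl⟩) |
    ⟨w, h1, h2, rfl⟩)
  · exact Or.inl (Or.inl ⟨a, b, z, z', h1.trans hij, h2, h3, h4, h5, rfl⟩)
  · exact Or.inl (Or.inr ⟨a, b, x, y, h1.trans hij, h2, h3, h4, h5, rfl⟩)
  · exact Or.inr ⟨w, ff_mono hij h1, h2, rfl⟩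

theorem E_mul_of (h : DS E F) {u v : U} (hu : E u = 0) : E (u * v) = u * E v := by
  rw [h.leib, hu, zero_mul, zero_add]

theorem E_mul_of' (h : DS E F) {u v : U} (hv : E v = 0) : E (u * v) = E u * v := by
  rw [h.leib, hv, mul_zero, add_zero]

/-- `NN` is stable under `g ⊗ 1 + 1 ⊗ g` for `g` in `ker E` -/
theorem nn_prm (h : DS E F) {d m : ℕ} {g : U} (hg : g ∈ F d) (hE : E g = 0) {t : U ⊗[K] U}
    (ht : t ∈ NN E F m) : prm K g * t ∈ NN E F (d + m) := by
  have h0 : E2 E (prm K g) = 0 := by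
    unfold prm
    rw [map_add, E2_tmul, E2_tmul, hE]
    have h1 : E 1 = 0 := by
      have := h.leib 1 1
      rw [mul_one, mul_one, one_mul] at this
      exact left_eq_add.1 this
    rw [h1, TensorProduct.tmul_zero, TensorProduct.tmul_zero, TensorProduct.zero_tmul,
      TensorProduct.zero_tmul, add_zero, add_zero]
  have hff : prm K g ∈ FF F d := Submodule.add_mem _ (ff_mem (by omega) hg h.one)
    (ff_mem (Nat.zero_add d).le h.one hg)
  induction ht using Submodule.span_induction with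
  | zero => rw [mul_zero]; exact Submodule.zero_mem _
  | add a b _ _ ha hb => rw [mul_add]; exact Submodule.add_mem _ ha hb
  | smul c a _ ha => rw [mul_smul_comm]; exact Submodule.smul_mem _ _ ha
  | mem t ht =>
    obtain ((⟨i, j, z, z', h1, h2, h3, h4, h5, rfl⟩ | ⟨i, j, x, y, h1, h2, h3, h4, h5, rfl⟩) |
      ⟨w, h1, h2, rfl⟩) := ht
    · unfold prm
      rw [add_mul, Algebra.TensorProduct.tmul_mul_tmul, Algebra.TensorProduct.tmul_mul_tmul,
        one_mul, one_mul]
      refine Submodule.add_mem _ (nn1 (i := d + i) (j := j) (by omega) (h.mul _ _ _ _ hg h2) h3 ?_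
        h5) (nn1 (i := i) (j := d + j) (by omega) h2 (h.mul _ _ _ _ hg h3) h4 ?_)
      · rw [E_mul_of h hE, h4, mul_zero]
      · rw [E_mul_of h hE, h5, mul_zero]
    · have h6 : prm K g * (x ⊗ₜ[K] E y - E x ⊗ₜ[K] y) =
          ((g * x) ⊗ₜ[K] E y - E (g * x) ⊗ₜ[K] y) + (x ⊗ₜ[K] E (g * y) - E x ⊗ₜ[K] (g * y)) := by
        unfold prm
        rw [E_mul_of h hE, E_mul_of h hE, add_mul, mul_sub, mul_sub,
          Algebra.TensorProduct.tmul_mul_tmul, Algebra.TensorProduct.tmul_mul_tmul,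
          Algebra.TensorProduct.tmul_mul_tmul, Algebra.TensorProduct.tmul_mul_tmul, one_mul,
          one_mul, one_mul, one_mul]
      rw [h6]
      refine Submodule.add_mem _ (nn2 (i := d + i) (j := j) (by omega) (h.mul _ _ _ _ hg h2) h3 ?_
        h5) (nn2 (i := i) (j := d + j) (by omega) h2 (h.mul _ _ _ _ hg h3) h4 ?_)
      · rw [E_mul_of h hE, E_mul_of h hE, h4, mul_zero]
      · rw [E_mul_of h hE, E_mul_of h hE, h5, mul_zero]
    · have h3 : prm K g * E2 E w = E2 E (prm K g * w) := by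
        rw [E2_mul h, h0, zero_mul, zero_add]
      rw [h3]
      refine nn3 (ff_mul h hff h1) ?_
      rw [← h3, E2_mul h, h0, zero_mul, zero_add, h2, mul_zero]

end

end H83.K3
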