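import Pool.Agent.H83.K3.Km

/-!
MP_9fed08_al, p = 3: the operator `Om = 2 mult (ρ ⊗ ρ) - mult` on the subspaces `NN`.
-/

set_option autoImplicit false

namespace H83.K3

open TensorProduct

section

variable {K : Type} [Field K] {U : Type} [Ring U] [Algebra K U] {E : U →ₗ[K] U}
  {F : ℕ → Submodule K U}

theorem mem_jj {v : U} : v ∈ JJ E ↔ ∃ w, E (E w) = 0 ∧ E w = v := Iff.rfl

theorem jj_ker {v : U} (hv : v ∈ JJ E) : E v = 0 := by
  obtain ⟨w, h1, rfl⟩ := mem_jj.1 hv
  exact h1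

theorem jj_left (h : DS E F) {z v : U} (hz : E z = 0) (hv : v ∈ JJ E) : z * v ∈ JJ E := by
  obtain ⟨w, h1, rfl⟩ := mem_jj.1 hv
  exact mem_jj.2 ⟨z * w, E_sq_mul h hz h1, E_mul_of h hz⟩

theorem jj_right (h : DS E F) {z v : U} (hz : E z = 0) (hv : v ∈ JJ E) : v * z ∈ JJ E := by
  obtain ⟨w, h1, rfl⟩ := mem_jj.1 hv
  exact mem_jj.2 ⟨w * z, E_sq_mul' h hz h1, E_mul_of' h hz⟩

theorem jj_sq (h : DS E F) (w : U) : E (E w) ∈ JJ E :=
  mem_jj.2 ⟨E w, h.cube w, rfl⟩

theorem Pi_tmul (ρ : U →ₗ[K] U) (u v : U) : Pi ρ (u ⊗ₜ[K] v) = ρ u * ρ v := rfl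

theorem mul_tmul (u v : U) : LinearMap.mul' K U (u ⊗ₜ[K] v) = u * v := rfl

theorem Pi_E2 {ρ : U →ₗ[K] U} (hρ : Rho E ρ) (w : U ⊗[K] U) : Pi ρ (E2 E w) = 0 := by
  induction w using TensorProduct.induction_on with
  | zero => rw [map_zero, map_zero]
  | add a b ha hb => rw [map_add, map_add, ha, hb, add_zero]
  | tmul u v => rw [E2_tmul, map_add, Pi_tmul, Pi_tmul, hρ.im, hρ.im, zero_mul, mul_zero, add_zero]

theorem mul_E2 (h : DS E F) (w : U ⊗[K] U) :
    LinearMap.mul' K U (E2 E w) = E (LinearMap.mul' K U w) := by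
  induction w using TensorProduct.induction_on with
  | zero => rw [map_zero, map_zero, map_zero]
  | add a b ha hb => rw [map_add, map_add, ha, hb, map_add, map_add]
  | tmul u v => rw [E2_tmul, map_add, mul_tmul, mul_tmul, mul_tmul, h.leib]

theorem Pi_ty2 {ρ : U →ₗ[K] U} (hρ : Rho E ρ) (x y : U) :
    Pi ρ (x ⊗ₜ[K] E y - E x ⊗ₜ[K] y) = 0 := by
  rw [map_sub, Pi_tmul, Pi_tmul, hρ.im, hρ.im, zero_mul, mul_zero, sub_zero]

theorem Pi_ty1 (h : DS E F) {ρ : U →ₗ[K] U} (hρ : Rho E ρ) {z z' : U} (hz : E z = 0)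
    (hz' : E z' = 0) : Pi ρ (z ⊗ₜ[K] z') - z * z' ∈ JJ E := by
  rw [Pi_tmul]
  have h1 := hρ.id z hz
  have h2 := hρ.id z' hz'
  have h3 : ρ z * ρ z' - z * z' =
      (ρ z - z) * (ρ z' - z') + (ρ z - z) * z' + z * (ρ z' - z') := by
    noncomm_ring
  rw [h3]
  exact Submodule.add_mem _ (Submodule.add_mem _ (jj_left h (jj_ker h1) h2) (jj_right h hz' h1))
    (jj_left h hz h2)

/-- the operator `2 mult (ρ ⊗ ρ) - mult` -/
noncomputable def Om (ρ : U →ₗ[K] U) : U ⊗[K] U →ₗ[K] U :=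
  (2 : K) • Pi ρ - LinearMap.mul' K U

theorem Om_apply (ρ : U →ₗ[K] U) (t : U ⊗[K] U) :
    Om ρ t = (2 : K) • Pi ρ t - LinearMap.mul' K U t := rfl

theorem Om_E2 (h : DS E F) {ρ : U →ₗ[K] U} (hρ : Rho E ρ) {w : U ⊗[K] U}
    (hw : E2 E (E2 E w) = 0) : Om ρ (E2 E w) ∈ JJ E := by
  rw [Om_apply, Pi_E2 hρ, smul_zero, zero_sub, mul_E2 h]
  refine Submodule.neg_mem _ (mem_jj.2 ⟨_, ?_, rfl⟩)
  rw [← mul_E2 h, ← mul_E2 h, hw, map_zero]

theorem Om_ty1 (h : DS E F) {ρ : U →ₗ[K] U} (hρ : Rho E ρ) {z z' : U} (hz : E z = 0)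
    (hz' : E z' = 0) : Om ρ (z ⊗ₜ[K] z') - z * z' ∈ JJ E := by
  have h1 := Submodule.smul_mem _ (2 : K) (Pi_ty1 h hρ hz hz')
  rw [Om_apply, mul_tmul]
  have h2 : (2 : K) • Pi ρ (z ⊗ₜ[K] z') - z * z' - z * z' =
      (2 : K) • (Pi ρ (z ⊗ₜ[K] z') - z * z') := by
    module
  rw [h2]
  exact h1

theorem Om_ty2 {ρ : U →ₗ[K] U} (hρ : Rho E ρ) (x y : U) :
    Om ρ (x ⊗ₜ[K] E y - E x ⊗ₜ[K] y) = - kap E x y := by
  rw [Om_apply, Pi_ty2 hρ, smul_zero, zero_sub, map_sub, mul_tmul, mul_tmul]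
  rfl

theorem Om_EE (h : DS E F) {ρ : U →ₗ[K] U} (hρ : Rho E ρ) (w : U ⊗[K] U) :
    Om ρ (E2 E (E2 E w)) ∈ JJ E := by
  rw [Om_apply, Pi_E2 hρ, smul_zero, zero_sub, mul_E2 h, mul_E2 h]
  exact Submodule.neg_mem _ (jj_sq h _)

/-- a transposition of two elements of degree one around a third element -/
theorem sw3 (h : DS E F) {i : ℕ} {u v w : U} (hu : u ∈ F 1) (hv : v ∈ F 1) (hw : w ∈ F i) :
    u * w * v - v * w * u ∈ F (1 + i) := by
  have h1 : u * w * v - v * w * u =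
      (u * v - v * u) * w + u * (w * v - v * w) + v * (u * w - w * u) := by
    noncomm_ring
  have h2 := h.comm _ _ _ hv hw
  have h3 : w * v - v * w ∈ F i := by
    have := Submodule.neg_mem _ h2
    rwa [neg_sub] at this
  rw [h1]
  exact Submodule.add_mem _ (Submodule.add_mem _ (h.mul _ _ _ _ (h.comm _ _ _ hu hv) hw)
    (h.mul _ _ _ _ hu h3)) (h.mul _ _ _ _ hv (h.comm _ _ _ hu hw))

theorem comm' (h : DS E F) {i : ℕ} {u v : U} (hu : u ∈ F 1) (hv : v ∈ F i) :
    v * u - u * v ∈ F i := by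
  have := Submodule.neg_mem _ (h.comm _ _ _ hu hv)
  rwa [neg_sub] at this

theorem kap_comm (h : DS E F) {i : ℕ} {a a' x : U} (ha : a ∈ F 1) (ha' : a' ∈ F 1)
    (hx : x ∈ F i) : kap E a a' * x - x * kap E a a' ∈ F (1 + i) := by
  have h1 : kap E a a' * x - x * kap E a a' = a * (E a' * x - x * E a') +
      (a * x - x * a) * E a' - (E a * (a' * x - x * a') + (E a * x - x * E a) * a') := by
    unfold kap
    noncomm_ring
  have hEa := h.stab _ _ ha
  have hEa' := h.stab _ _ ha'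
  have h2 : (a * x - x * a) * E a' ∈ F (1 + i) := by
    rw [add_comm]
    exact h.mul _ _ _ _ (h.comm _ _ _ ha hx) hEa'
  have h3 : (E a * x - x * E a) * a' ∈ F (1 + i) := by
    rw [add_comm]
    exact h.mul _ _ _ _ (h.comm _ _ _ hEa hx) ha'
  rw [h1]
  exact Submodule.sub_mem _ (Submodule.add_mem _ (h.mul _ _ _ _ ha (h.comm _ _ _ hEa' hx)) h2)
    (Submodule.add_mem _ (h.mul _ _ _ _ hEa (h.comm _ _ _ ha' hx)) h3)

theorem r1_mem (h : DS E F) {i j : ℕ} {a a' z z' : U} (ha : a ∈ F 1) (ha' : a' ∈ F 1)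
    (hz : z ∈ F i) (hz' : z' ∈ F j) :
    kap E a a' * z * z' + z * (kap E a a' * z') - (a * z * (E a' * z') - E a * z * (a' * z')) +
      (a' * z * (E a * z') - E a' * z * (a * z')) ∈ F (1 + i + j) := by
  have hEa := h.stab _ _ ha
  have hEa' := h.stab _ _ ha'
  have h1 : kap E a a' * z * z' + z * (kap E a a' * z') -
      (a * z * (E a' * z') - E a * z * (a' * z')) +
      (a' * z * (E a * z') - E a' * z * (a * z')) =
      (a * (E a' * z - z * E a') - E a * (a' * z - z * a') + ((z * a) * E a' - E a' * (z * a)) -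
        ((z * E a) * a' - a' * (z * E a))) * z' := by
    unfold kap
    noncomm_ring
  have hza : z * a ∈ F (1 + i) := by rw [add_comm]; exact h.mul _ _ _ _ hz ha
  have hzEa : z * E a ∈ F (1 + i) := by rw [add_comm]; exact h.mul _ _ _ _ hz hEa
  rw [h1]
  refine h.mul _ _ _ _ (Submodule.sub_mem _ (Submodule.add_mem _ (Submodule.sub_mem _
    (h.mul _ _ _ _ ha (h.comm _ _ _ hEa' hz)) (h.mul _ _ _ _ hEa (h.comm _ _ _ ha' hz)))
    (comm' h hEa' hza)) (comm' h ha' hzEa)) hz'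

/-- the Pluecker relation modulo lower degree -/
theorem pl_mem (h : DS E F) {i j : ℕ} {a a' x y : U} (ha : a ∈ F 1) (ha' : a' ∈ F 1)
    (hx : x ∈ F i) (hy : y ∈ F j) :
    kap E a x * kap E a' y - kap E a' x * kap E a y - kap E a a' * kap E x y ∈ F (1 + i + j) := by
  have hEa := h.stab _ _ ha
  have hEa' := h.stab _ _ ha'
  have hEx := h.stab _ _ hx
  have hEy := h.stab _ _ hy
  have h1 : kap E a x * kap E a' y - kap E a' x * kap E a y - kap E a a' * kap E x y =
      ((a * E x * a' - a' * E x * a) + E a * (a' * x - x * a') +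
        ((E a' * x) * a - a * (E a' * x))) * E y +
      (a * (E a' * E x - E x * E a') + (E a * x * E a' - E a' * x * E a) +
        ((a' * E x) * E a - E a * (a' * E x))) * y := by
    unfold kap
    noncomm_ring
  rw [h1]
  refine Submodule.add_mem _ (h.mul _ _ _ _ (Submodule.add_mem _ (Submodule.add_mem _
    (sw3 h ha ha' hEx) (h.mul _ _ _ _ hEa (h.comm _ _ _ ha' hx)))
    (comm' h ha (h.mul _ _ _ _ hEa' hx))) hEy)
    (h.mul _ _ _ _ (Submodule.add_mem _ (Submodule.add_mem _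
    (h.mul _ _ _ _ ha (h.comm _ _ _ hEa' hEx)) (sw3 h hEa hEa' hx))
    (comm' h hEa (h.mul _ _ _ _ ha' hEx))) hy)

theorem kap_left (h : DS E F) {g : U} (hg : E g = 0) (x y : U) :
    kap E (g * x) y = g * kap E x y := by
  unfold kap
  rw [E_mul_of h hg, mul_sub, mul_assoc, mul_assoc]

theorem kap_right (h : DS E F) {g : U} (hg : E g = 0) (x y : U) :
    kap E x (g * y) = x * g * E y - E x * g * y := by
  unfold kap
  rw [E_mul_of h hg, mul_assoc, mul_assoc]

/-- the main computation: `Om` lowers the degree of the multiples of `kap a a'` modulo `J` -/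
theorem om_dk (h : DS E F) (h3 : (3 : K) = 0) {ρ : U →ₗ[K] U} (hρ : Rho E ρ) {m : ℕ} {a a' : U}
    (ha1 : a ∈ F 1) (ha1' : a' ∈ F 1) (ha : E (E a) = 0) (ha' : E (E a') = 0) {t : U ⊗[K] U}
    (ht : t ∈ NN E F m) : Om ρ (dk E a a' * t) ∈ JJ E ⊔ (LinearMap.ker E ⊓ F (m + 1)) := by
  have hk := E_kap h ha ha'
  induction ht using Submodule.span_induction with
  | zero => rw [mul_zero, map_zero]; exact Submodule.zero_mem _
  | add a b _ _ ha hb => rw [mul_add, map_add]; exact Submodule.add_mem _ ha hb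
  | smul c a _ ha => rw [mul_smul_comm, map_smul]; exact Submodule.smul_mem _ _ ha
  | mem t ht =>
    obtain ((⟨i, j, z, z', h1, h2, h4, h5, h6, rfl⟩ | ⟨i, j, x, y, h1, h2, h4, h5, h6, rfl⟩) |
      ⟨w, h1, h2, rfl⟩) := ht
    · obtain ⟨r, hr⟩ : ∃ r, r = kap E a a' * z * z' + z * (kap E a a' * z') -
        kap E (a * z) (a' * z') + kap E (a' * z) (a * z') := ⟨_, rfl⟩
      have e1 : E (kap E a a' * z) = 0 := by rw [E_mul_of h hk, h5, mul_zero]
      have e2 : E (kap E a a' * z') = 0 := by rw [E_mul_of h hk, h6, mul_zero]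
      have hrE : E r = 0 := by
        rw [hr, map_add, map_sub, map_add, E_kap h (E_sq_mul' h h5 ha) (E_sq_mul' h h6 ha'),
          E_kap h (E_sq_mul' h h5 ha') (E_sq_mul' h h6 ha), E_mul_of h e1, h6, E_mul_of h h5, e2,
          mul_zero, mul_zero, sub_zero, add_zero, add_zero]
      have hrF : r ∈ F (m + 1) := by
        rw [hr]
        unfold kap
        rw [E_mul_of' h h5, E_mul_of' h h5, E_mul_of' h h6, E_mul_of' h h6]
        exact h.mono (1 + i + j) _ (by omega) (r1_mem h ha1 ha1' h2 h4)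
      have h7 : Om ρ (dk E a a' * (z ⊗ₜ[K] z')) =
          ((Om ρ ((kap E a a' * z) ⊗ₜ[K] z') - kap E a a' * z * z') +
            (Om ρ (z ⊗ₜ[K] (kap E a a' * z')) - z * (kap E a a' * z'))) + r := by
        rw [dk_ty1 h h5 h6, map_sub, map_add, map_add, Om_ty2 hρ, Om_ty2 hρ, hr]
        abel
      rw [h7]
      exact Submodule.add_mem_sup (Submodule.add_mem _ (Om_ty1 h hρ e1 h6) (Om_ty1 h hρ h5 e2))
        ⟨LinearMap.mem_ker.2 hrE, hrF⟩
    · obtain ⟨r, hr⟩ : ∃ r, r = (2 : K) • (kap E a x * kap E a' y) -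
        (2 : K) • (kap E a' x * kap E a y) - kap E (kap E a a' * x) y -
          kap E x (kap E a a' * y) := ⟨_, rfl⟩
      have e1 := E_kap h ha h5
      have e2 := E_kap h ha' h6
      have e3 := E_kap h ha' h5
      have e4 := E_kap h ha h6
      have hrE : E r = 0 := by
        rw [hr, map_sub, map_sub, map_sub, map_smul, map_smul, E_kap h (E_sq_mul h hk h5) h6,
          E_kap h h5 (E_sq_mul h hk h6), E_mul_of h e1, e2, E_mul_of h e3, e4, mul_zero, mul_zero,
          smul_zero, sub_zero, sub_zero, sub_zero]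
      have hrF : r ∈ F (m + 1) := by
        have h7 : r = (2 : K) • (kap E a x * kap E a' y - kap E a' x * kap E a y -
            kap E a a' * kap E x y) + ((kap E a a' * x - x * kap E a a') * E y -
              (kap E a a' * E x - E x * kap E a a') * y) := by
          have h8 : kap E (kap E a a' * x) y = kap E a a' * kap E x y := kap_left h hk x y
          have h9 : kap E x (kap E a a' * y) = x * kap E a a' * E y - E x * kap E a a' * y :=
            kap_right h hk x y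
          have h10 : (kap E a a' * x - x * kap E a a') * E y -
              (kap E a a' * E x - E x * kap E a a') * y =
              kap E a a' * kap E x y - x * kap E a a' * E y + E x * kap E a a' * y := by
            have h11 : kap E x y = x * E y - E x * y := rfl
            rw [h11]
            noncomm_ring
          rw [hr, h8, h9, h10]
          module
        rw [h7]
        refine Submodule.add_mem _ (Submodule.smul_mem _ _
          (h.mono (1 + i + j) _ (by omega) (pl_mem h ha1 ha1' h2 h4))) (Submodule.sub_mem _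
          (h.mono (1 + i + j) _ (by omega) (h.mul _ _ _ _ (kap_comm h ha1 ha1' h2)
            (h.stab _ _ h4)))
          (h.mono (1 + i + j) _ (by omega) (h.mul _ _ _ _ (kap_comm h ha1 ha1' (h.stab _ _ h2))
            h4)))
      have h7 : Om ρ (dk E a a' * (x ⊗ₜ[K] E y - E x ⊗ₜ[K] y)) =
          (((2 : K) • (Om ρ (kap E a x ⊗ₜ[K] kap E a' y) - kap E a x * kap E a' y) -
            (2 : K) • (Om ρ (kap E a' x ⊗ₜ[K] kap E a y) - kap E a' x * kap E a y)) -
            Om ρ (E2 E (E2 E ((a * x) ⊗ₜ[K] (a' * y)))) +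
            Om ρ (E2 E (E2 E ((a' * x) ⊗ₜ[K] (a * y))))) + r := by
        have h8 : ∀ s t : U ⊗[K] U, Om ρ ((2 : K) • s - t) = (2 : K) • Om ρ s - Om ρ t := by
          intro s t
          rw [map_sub, map_smul]
        rw [dk_ty2 h h3 ha ha' h5 h6, map_sub (Om ρ), map_add, map_add, h8, h8, Om_ty2 hρ,
          Om_ty2 hρ, hr]
        module
      rw [h7]
      exact Submodule.add_mem_sup (Submodule.add_mem _ (Submodule.sub_mem _
        (Submodule.sub_mem _ (Submodule.smul_mem _ _ (Om_ty1 h hρ e1 e2))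
          (Submodule.smul_mem _ _ (Om_ty1 h hρ e3 e4))) (Om_EE h hρ _)) (Om_EE h hρ _))
        ⟨LinearMap.mem_ker.2 hrE, hrF⟩
    · have h4 : dk E a a' * E2 E w = E2 E (dk E a a' * w) := by
        rw [E2_mul h, E2_dk h ha ha', zero_mul, zero_add]
      rw [h4]
      refine Submodule.mem_sup_left (Om_E2 h hρ ?_)
      rw [← h4, E2_mul h, E2_dk h ha ha', zero_mul, zero_add, h2, mul_zero]

end

end H83.K3
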